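import Pool.Agent.Lib.Pd1e448.Main

/-!
MP_d1e448_co, Q1: Boolean dimension versus dimension for convex geometries.
-/

namespace Pool.Agent.Results.MP_d1e448_co.BooleanVsDim

open Pool.Agent.Lib.Pd1e448

/-- There are convex geometries of Boolean dimension at most `23` and arbitrarily large
dimension. -/
theorem result (k : ℕ) : ∃ (X : Type) (C : Set (Set X)),
    IsConvexGeometry C ∧ bdim C ≤ 23 ∧ (k : ℕ∞) ≤ dim C := by
  obtain ⟨X, C, h1, h2, -, h3⟩ := main k
  exact ⟨X, C, h1, h2, h3⟩

end Pool.Agent.Results.MP_d1e448_co.BooleanVsDim
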